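import Mathlib
import Pool.Agent.Lib.MP_fb76f8_nt.Final

set_option autoImplicit false

/-!
The numbers of the form `T_x + T_y + 6 T_z`, where `T_x = x (x - 1) / 2`.
-/

namespace Pool.Agent.Results.MP_fb76f8_nt.Triangular116

theorem result (n : ℕ) :
    (∃ x y z : ℤ, (n : ℤ) = x * (x - 1) / 2 + y * (y - 1) / 2 + 6 * (z * (z - 1) / 2)) ↔
      ∀ r : ℕ, 1 ≤ r → ¬ (n : ℤ) ≡ 2 * 3 ^ (2 * r - 1) - 1 [ZMOD 3 ^ (2 * r)] :=
  Pool.Agent.Lib.MP_fb76f8_nt.represented_iff n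

end Pool.Agent.Results.MP_fb76f8_nt.Triangular116
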